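import Pool.Agent.H99B.Lim0

/-!
The loop O(n) model on the honeycomb lattice for ALL `n ∈ [0, 2]`, at both of Nienhuis' points
`x_c(n) = (2 + √(2 - n))^(-1/2)` (`κ ∈ [8/3, 4]`) and `(2 - √(2 - n))^(-1/2) > x_c(n)`
(`κ ∈ [4, 8]`), with `n = - 2 cos (4 π / κ)`: exact relations between the weights of the paths from
a boundary point of a lattice triangle or trapezoid to the different sides.

Consequences, uniformly in the size of the domain and in the position of the starting point: in a
triangle, the path to a boundary point chosen with probability proportional to its weight ends on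
the side of its starting point with probability less than `1 / (4 cos (π / κ) ^ 2)`; for `n = 0`,
`κ = 8` the probability tends to `1 - 1 / √2`, the value of this bound.

The proof is in `Pool/Agent/H99B/`: the parafermionic identity of Smirnov with loops, for all finite
domains in the slit plane (`Fin.lean`), and the winding of the paths
(starting files `Pool/Agent/H978R2/Hex/`).
-/

set_option autoImplicit false

namespace Pool.Agent.Results.MP_4960b8_pr.AllNTriangles

open Real

/-- Adjacency in the honeycomb lattice (brick-wall coordinates). -/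
def Adj (p q : ℤ × ℤ) : Prop :=
  q - p = (1, 0) ∨ q - p = (-1, 0) ∨
  (q - p = (0, 1) ∧ Even (p.1 + p.2)) ∨
  (q - p = (0, -1) ∧ Even (q.1 + q.2))

/-- The edges of the path with the given list of vertices. -/
def edges : List (ℤ × ℤ) → Finset (Sym2 (ℤ × ℤ))
  | a :: b :: t => insert s(a, b) (edges (b :: t))
  | _ => ∅

/-- A closed loop, as a set of edges: the edges of a closed path `v, l, v` without other
coincidences. -/
def IsLoop (C : Finset (Sym2 (ℤ × ℤ))) : Prop :=
  ∃ v l, 2 ≤ l.length ∧ (v :: l).Nodup ∧ (v :: (l ++ [v])).IsChain Adj ∧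
    C = edges (v :: (l ++ [v]))

open Classical in
/-- The loops in `D`. -/
noncomputable def loopsIn (D : Finset (ℤ × ℤ)) : Finset (Finset (Sym2 (ℤ × ℤ))) :=
  D.sym2.powerset.filter IsLoop

open Classical in
/-- The loop configurations in `D`: the sets of loops in `D` without common vertices. -/
noncomputable def configs (D : Finset (ℤ × ℤ)) : Finset (Finset (Finset (Sym2 (ℤ × ℤ)))) :=
  (loopsIn D).powerset.filter
    (fun S => ∀ C ∈ S, ∀ C' ∈ S, ∀ e ∈ C, ∀ e' ∈ C', ∀ v ∈ e, v ∈ e' → C = C')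

/-- The partition function without a path: the sum of `n ^ (number of loops) x ^ (number of edges)`
over the loop configurations in `D` (`0 ^ 0 = 1`). -/
noncomputable def Z₀ (n x : ℝ) (D : Finset (ℤ × ℤ)) : ℝ :=
  ∑ S ∈ configs D, n ^ S.card * x ^ (∑ C ∈ S, C.card)

/-- The self-avoiding paths from the boundary vertex `(0, 0)` through `D` to an end vertex in
`R`. -/
def Paths (D : Finset (ℤ × ℤ)) (R : Set (ℤ × ℤ)) : Set (List (ℤ × ℤ)) :=
  {l | l.head? = some (0, 0) ∧ (∃ z ∈ R, l.getLast? = some z) ∧ l.Nodup ∧ l.IsChain Adj ∧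
    3 ≤ l.length ∧ ∀ v ∈ l.tail.dropLast, v ∈ D}

/-- The sum of `x ^ L n ^ M` over the configurations which consist of a path from `(0, 0)` to `R`
and of `M` loops, where `L` is the total number of edges: the sum over the path and over the loop
configurations in the part of `D` not visited by the path. -/
noncomputable def Z (n x : ℝ) (D : Finset (ℤ × ℤ)) (R : Set (ℤ × ℤ)) : ℝ :=
  ∑ᶠ l ∈ Paths D R, x ^ (l.length - 1) * Z₀ n x (D.filter (fun v => v ∉ l))

/-- The lattice trapezoid with base `x - y = 1`, top `x - y = 2 h` and the sides `x + y = 2 p + 1`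
and `y = - q` (at 60 degrees to the base). The base has `p + q + 1` boundary edges; the starting
vertex `(0, 0)` is on the base, at distance `p` and `q` of its ends. -/
noncomputable def Trapezoid (p q h : ℕ) : Finset (ℤ × ℤ) :=
  (Finset.Icc (1 - (q : ℤ)) (2 * p + 1 + q) ×ˢ Finset.Icc (-(q : ℤ)) p).filter
    (fun v => 1 ≤ v.1 - v.2 ∧ v.1 - v.2 ≤ 2 * h ∧ v.1 + v.2 ≤ 2 * p + 1)

/-- The equilateral lattice triangle with the same base. -/
noncomputable def Triangle (p q : ℕ) : Finset (ℤ × ℤ) := Trapezoid p q (p + q + 1)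

/-- End vertices next to the base, on the two sides of the starting vertex. -/
def base₁ : Set (ℤ × ℤ) := {z | z.1 = z.2 ∧ 0 < z.2}
/-- End vertices next to the base, on the two sides of the starting vertex. -/
def base₂ : Set (ℤ × ℤ) := {z | z.1 = z.2 ∧ z.2 < 0}
/-- End vertices next to the side `x + y = 2 p + 1`. -/
def side₁ (p : ℕ) : Set (ℤ × ℤ) := {z | z.1 + z.2 = 2 * p + 2}
/-- End vertices next to the side `y = - q`. -/
def side₂ (q : ℕ) : Set (ℤ × ℤ) := {z | z.2 = -(q : ℤ) - 1}
/-- End vertices next to the top. -/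
def top (h : ℕ) : Set (ℤ × ℤ) := {z | z.1 - z.2 = 2 * h + 1}

/-- The two points of the O(n) model: `x = x_c(n)` with `κ ∈ [8/3, 4]` as in Q1, and
`x = (2 - √(2 - n))^(-1/2)`, larger than `x_c(n)` for `n < 2`, with `κ ∈ [4, 8]` as in Q2. -/
def Nienhuis (κ n x : ℝ) : Prop :=
  n = -2 * cos (4 * π / κ) ∧
    ((8 / 3 ≤ κ ∧ κ ≤ 4 ∧ x = (2 + (2 - n) ^ (1 / 2 : ℝ)) ^ (-(1 / 2) : ℝ)) ∨
      (4 ≤ κ ∧ κ ≤ 8 ∧ x = (2 - (2 - n) ^ (1 / 2 : ℝ)) ^ (-(1 / 2) : ℝ)))

section Aux

open Pool.Agent.H99B

theorem adj_eq : Adj = H978R2.Hex.Adj := rfl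

theorem edges_eq (l : List (ℤ × ℤ)) : edges l = Pool.Agent.H99B.edges l := by
  induction l with
  | nil => rfl
  | cons a l ih =>
    match l, ih with
    | [], _ => rfl
    | b :: t, ih =>
      rw [edges, ih]
      rfl

theorem isLoop_iff (C : Finset (Sym2 (ℤ × ℤ))) : IsLoop C ↔ Pool.Agent.H99B.IsLoop C := by
  unfold IsLoop Pool.Agent.H99B.IsLoop
  constructor
  · rintro ⟨v, l, h1, h2, h3, h4⟩
    rw [edges_eq] at h4
    exact ⟨v, l, ⟨h1, h2, h3⟩, h4⟩
  · rintro ⟨v, l, ⟨h1, h2, h3⟩, h4⟩
    rw [← edges_eq] at h4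
    exact ⟨v, l, h1, h2, h3, h4⟩

theorem loopsIn_eq (D : Finset (ℤ × ℤ)) : loopsIn D = Pool.Agent.H99B.loopsIn D := by
  classical
  ext C
  rw [mem_loopsIn]
  unfold loopsIn
  rw [Finset.mem_filter, Finset.mem_powerset, isLoop_iff]
  refine and_congr_left fun _ => ?_
  constructor
  · intro h e he v hv
    exact Finset.mem_sym2_iff.1 (h he) v hv
  · intro h e he
    exact Finset.mem_sym2_iff.2 (h e he)

theorem configs_eq (D : Finset (ℤ × ℤ)) : configs D = Pool.Agent.H99B.configs D := by
  classical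
  ext S
  rw [mem_configs]
  unfold configs
  rw [Finset.mem_filter, Finset.mem_powerset, loopsIn_eq]
  exact Iff.rfl

theorem Z₀_eq (n x : ℝ) (D : Finset (ℤ × ℤ)) : Z₀ n x D = Lam n x D := by
  unfold Z₀ Lam
  rw [configs_eq]
  rfl

theorem Z_eq (n x : ℝ) (D : Finset (ℤ × ℤ)) (R : Set (ℤ × ℤ)) :
    Z n x D R = Zw n x D (fun z => z ∈ R) := by
  unfold Z Zw
  refine finsum_congr fun l => ?_
  refine finsum_congr fun _ => ?_
  rw [Z₀_eq]
  rfl

theorem trap_eq (p q h : ℕ) : Trapezoid p q h = Tz p q h := rfl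

end Aux

open Pool.Agent.H99B

/-- **Theorem.** Let `n ∈ [0, 2]`, `x` one of the two points, `κ` the corresponding parameter.
(1) In every trapezoid: two exact relations between the weights of the five parts of the boundary,
and the weight of the paths which leave the base is larger than `sin (3 π / κ)` times the weight of
the others.
In every triangle: (2) the probability that the random end vertex is on the base is less than
`1 / (4 cos (π / κ) ^ 2)`; (3) if the start is at the corner (`q = 0`), the three sides have the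
weights `B`, `B + x ^ 2 Z₀` and `2 cos (2 π / κ) B + x ^ 2 Z₀`; (4) for `κ = 8` (`n = 0`,
`x = (2 - √2)^(-1/2)`) the probability in (2) differs from `1 - 1 / √2 = 1 / (4 cos (π / 8) ^ 2)` by
at most `x ^ (-(p + q))`. -/
theorem result (κ n x : ℝ) (hN : Nienhuis κ n x) (p q : ℕ) :
    (∀ h : ℕ, 1 ≤ h →
      Z n x (Trapezoid p q h) (side₁ p) + Z n x (Trapezoid p q h) (side₂ q) +
          2 * x * Z n x (Trapezoid p q h) (top h) =
        2 * x ^ 2 * Z₀ n x (Trapezoid p q h) + (1 + 2 * cos (2 * π / κ)) *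
          (Z n x (Trapezoid p q h) base₁ + Z n x (Trapezoid p q h) base₂) ∧
      Z n x (Trapezoid p q h) (side₁ p) - Z n x (Trapezoid p q h) (side₂ q) =
        (2 * cos (2 * π / κ) - 1) *
          (Z n x (Trapezoid p q h) base₁ - Z n x (Trapezoid p q h) base₂) ∧
      sin (3 * π / κ) * (Z n x (Trapezoid p q h) base₁ + Z n x (Trapezoid p q h) base₂) <
        Z n x (Trapezoid p q h) (side₁ p) + Z n x (Trapezoid p q h) (side₂ q) +
          Z n x (Trapezoid p q h) (top h)) ∧
    (Z n x (Triangle p q) base₁ + Z n x (Triangle p q) base₂) /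
      (Z n x (Triangle p q) base₁ + Z n x (Triangle p q) base₂ +
        (Z n x (Triangle p q) (side₁ p) + Z n x (Triangle p q) (side₂ q))) <
      1 / (4 * cos (π / κ) ^ 2) ∧
    (q = 0 →
      Z n x (Triangle p q) (side₂ q) = Z n x (Triangle p q) base₁ + x ^ 2 * Z₀ n x (Triangle p q) ∧
      Z n x (Triangle p q) (side₁ p) =
        2 * cos (2 * π / κ) * Z n x (Triangle p q) base₁ + x ^ 2 * Z₀ n x (Triangle p q)) ∧
    (κ = 8 → 1 ≤ p + q →
      |(Z n x (Triangle p q) base₁ + Z n x (Triangle p q) base₂) /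
        (Z n x (Triangle p q) base₁ + Z n x (Triangle p q) base₂ +
          (Z n x (Triangle p q) (side₁ p) + Z n x (Triangle p q) (side₂ q))) - (1 - 1 / √2)| ≤
      x⁻¹ ^ (p + q)) := by
  have hp : Pr κ n x := pr_of hN.1 hN.2
  have hpi := pi_pos
  have hn := hp.n_nonneg
  have hx := hp.hx
  refine ⟨?_, ?_, ?_, ?_⟩
  · intro h hh
    simp only [Z_eq, Z₀_eq, trap_eq]
    exact ⟨(rel hp hh).1, (rel hp hh).2, off_base hp hh⟩
  · simp only [Z_eq, Triangle, trap_eq]
    have e := off_base_tri hp (p := p) (q := q) (le_refl (p + q + 1))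
    have h1 := Zw_nonneg hn hx.le (Tz p q (p + q + 1)) Bp
    have h2 := Zw_nonneg hn hx.le (Tz p q (p + q + 1)) Bm
    have hL : 0 < Lam n x (Tz p q (p + q + 1)) := lt_of_lt_of_le one_pos (Lam_pos hn hx.le _)
    have hc : 0 < cos (π / κ) := cos_pos_of_mem_Ioo ⟨by linarith [hp.ang.1], by linarith [hp.ang.2]⟩
    have hpos : 0 < 2 * x ^ 2 * Lam n x (Tz p q (p + q + 1)) :=
      mul_pos (mul_pos two_pos (pow_pos hx 2)) hL
    have hc2 : 0 < 4 * cos (π / κ) ^ 2 := mul_pos (by norm_num) (pow_pos hc 2)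
    change (Zw n x (Tz p q (p + q + 1)) Bp + Zw n x (Tz p q (p + q + 1)) Bm) /
      (Zw n x (Tz p q (p + q + 1)) Bp + Zw n x (Tz p q (p + q + 1)) Bm +
        (Zw n x (Tz p q (p + q + 1)) (Sp p) + Zw n x (Tz p q (p + q + 1)) (Sm q))) <
      1 / (4 * cos (π / κ) ^ 2)
    have hden : 0 < Zw n x (Tz p q (p + q + 1)) Bp + Zw n x (Tz p q (p + q + 1)) Bm +
        (Zw n x (Tz p q (p + q + 1)) (Sp p) + Zw n x (Tz p q (p + q + 1)) (Sm q)) := by
      rw [← e]
      have := mul_nonneg hc2.le (add_nonneg h1 h2)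
      linarith
    rw [div_lt_div_iff₀ hden hc2, one_mul, ← e]
    linarith
  · rintro rfl
    simp only [Z_eq, Z₀_eq, Triangle, trap_eq]
    exact corner hp (by omega)
  · rintro rfl hpq
    have hn0 : n = 0 := by
      have h1 := hN.1
      have e : 4 * π / 8 = π / 2 := by ring
      rw [h1, e, cos_pi_div_two, mul_zero]
    subst hn0
    simp only [Z_eq, Triangle, trap_eq]
    exact lim_zero hp hpq (le_refl _)

end Pool.Agent.Results.MP_4960b8_pr.AllNTriangles
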