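import Pool.Agent.H99B.Kap
import Pool.Agent.H99F.Fin

/-!
The critical loop O(n) model on the honeycomb lattice, for ALL `n ∈ [0, 2]` and both critical points
(`κ ∈ [8/3, 4]`: `x = x_c(n)`; `κ ∈ [4, 8]`: the second Nienhuis point, `x > x_c(n)` for `n < 2`;
`n = - 2 cos (4 π / κ)`), in finite domains `D` without holes: the paths from a vertex `v` of `D` to the
boundary of `D` (the correlation of a spin in the bulk and all the boundary spins).

(1) With the weights `x ^ L n ^ M cos (c W)`, `c = π / 2 - π / κ`, `W` the winding of the path (in units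
of 60 degrees), their total weight is EXACTLY the sum over all loop configurations without path, in which
the loops around `v` have the weight `2 - n ^ 2` instead of `n`, a loop through `v` has the weight
`n + 2 cos (6 π / κ)` or `2 - n ^ 2 + 2 cos (6 π / κ)`, and the configurations with no loop through `v`
have the additional weight `3`. So the winding of the path from the bulk to the boundary is related to
the number of the loops around its starting point.
(2) For all `n ∈ [0, 1]` and `x = x_c(n)` (`κ ≤ 3`) the right side is at least three times the partition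
function. Hence the total weight of the paths from `v` to the boundary, also without the factor
`cos (c W)`, is at least `3 Z` for every vertex of every simply connected domain, and there is a boundary
edge `e` for which the paths from `v` to `e` have a weight of at least `3 Z / |∂D|`: the correlations
from the bulk to the boundary do not decay exponentially.
(3) For `3 ≤ κ ≤ 6` (`1 ≤ n ≤ 2`, both critical points) the signed total weight is at most `3 Z` in
absolute value, and it is equal to `3 Z` for `κ = 3` (critical Ising model).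

The proof is in `Pool/Agent/H99C/` (identity with surrounding loops: `IdentW.lean`),
`Pool/Agent/H99E/` and `Pool/Agent/H99F/`.
-/

set_option autoImplicit false

namespace Pool.Agent.Results.MP_4960b8_pr.BulkToBoundary

open Real

/-- Adjacency in the honeycomb lattice (brick-wall coordinates). -/
def Adj (p q : ℤ × ℤ) : Prop :=
  q - p = (1, 0) ∨ q - p = (-1, 0) ∨
  (q - p = (0, 1) ∧ Even (p.1 + p.2)) ∨
  (q - p = (0, -1) ∧ Even (q.1 + q.2))

/-- The edges of the path with the given list of vertices. -/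
def edges : List (ℤ × ℤ) → Finset (Sym2 (ℤ × ℤ))
  | a :: b :: t => insert s(a, b) (edges (b :: t))
  | _ => ∅

/-- A closed loop, as a set of edges: the edges of a closed path `v, l, v` without other
coincidences. -/
def IsLoop (C : Finset (Sym2 (ℤ × ℤ))) : Prop :=
  ∃ v l, 2 ≤ l.length ∧ (v :: l).Nodup ∧ (v :: (l ++ [v])).IsChain Adj ∧
    C = edges (v :: (l ++ [v]))

open Classical in
/-- The loops in `D`. -/
noncomputable def loopsIn (D : Finset (ℤ × ℤ)) : Finset (Finset (Sym2 (ℤ × ℤ))) :=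
  D.sym2.powerset.filter IsLoop

open Classical in
/-- The loop configurations in `D`: the sets of loops in `D` without common vertices. -/
noncomputable def configs (D : Finset (ℤ × ℤ)) : Finset (Finset (Finset (Sym2 (ℤ × ℤ)))) :=
  (loopsIn D).powerset.filter
    (fun S => ∀ C ∈ S, ∀ C' ∈ S, ∀ e ∈ C, ∀ e' ∈ C', ∀ v ∈ e, v ∈ e' → C = C')

open Classical in
/-- The sum of `n ^ (number of loops) x ^ (number of edges)` over the loop configurations in the part
of `D` not visited by the path `l` (`0 ^ 0 = 1`). For `l = []` this is the partition function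
without a path. -/
noncomputable def Z (n x : ℝ) (D : Finset (ℤ × ℤ)) (l : List (ℤ × ℤ)) : ℝ :=
  ∑ S ∈ configs (D.filter (fun u => u ∉ l)), n ^ S.card * x ^ (∑ C ∈ S, C.card)

/-- `D` has no holes: every vertex outside of `D` can be joined by a path outside of `D` to a vertex
which is below all vertices of `D`. -/
def NoHoles (D : Finset (ℤ × ℤ)) : Prop :=
  ∀ z, z ∉ D → ∃ u, (∀ v ∈ D, u.2 < v.2) ∧
    Relation.ReflTransGen (fun p q => Adj p q ∧ q ∉ D) z u

/-- The self-avoiding paths from `v` to the outside of `D`, as lists of vertices in reversed order: the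
first vertex is outside of `D`, the last one is `v`, and the other vertices (if any) are in `D`. -/
def From (D : Finset (ℤ × ℤ)) (v : ℤ × ℤ) : Set (List (ℤ × ℤ)) :=
  {l | l.Nodup ∧ l.IsChain Adj ∧ ∃ z w, l = z :: (w ++ [v]) ∧ z ∉ D ∧ ∀ y ∈ w, y ∈ D}

/-- The boundary edges of `D`, directed into `D`. -/
def Bdry (D : Finset (ℤ × ℤ)) : Set ((ℤ × ℤ) × (ℤ × ℤ)) :=
  {e | e.1 ∉ D ∧ e.2 ∈ D ∧ Adj e.1 e.2}

/-- Twice the height of a vertex; the vertex `v` is at the point `(√3 / 2 * v.1, ht v / 2)` of the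
plane, and all edges have the length 1. -/
def ht (v : ℤ × ℤ) : ℤ := 3 * v.2 - (v.1 + v.2) % 2

/-- The turn at `b` of the path `a, b, c`: `1` to the left, `-1` to the right. -/
def turn (a b c : ℤ × ℤ) : ℤ :=
  ((b.1 - a.1) * (ht c - ht b) - (ht b - ht a) * (c.1 - b.1)) / 2

/-- The number of right turns minus the number of left turns of a path. -/
def W : List (ℤ × ℤ) → ℤ
  | a :: b :: c :: t => turn c b a + W (b :: c :: t)
  | _ => 0

/-- The signed weight of a path from `v` to the outside of `D`; the number of the vertices other than its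
two ends is the number of its edges, if the first and the last edge are counted with `1 / 2`. -/
noncomputable def wt (κ x : ℝ) (l : List (ℤ × ℤ)) : ℝ :=
  x ^ (l.length - 2) * cos (W l * (π / 2 - π / κ))

/-- The point of the plane with the vertex `v`. -/
noncomputable def pos (v : ℤ × ℤ) : ℂ := ⟨√3 / 2 * (v.1 : ℝ), (ht v : ℝ) / 2⟩

/-- The angle swept by a path, seen from the vertex `b`: the sum of the angles at `b` of all its
edges, in `(-π, π]`. -/
noncomputable def swept (b : ℤ × ℤ) : List (ℤ × ℤ) → ℝ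
  | p :: q :: t => Complex.arg ((pos p - pos b) / (pos q - pos b)) + swept b (q :: t)
  | _ => 0

/-- The loop `C` visits the vertex `v`. -/
def Visits (C : Finset (Sym2 (ℤ × ℤ))) (v : ℤ × ℤ) : Prop := ∃ e ∈ C, v ∈ e

/-- The loop `C`, which does not visit `v`, winds around `v`. -/
def Around (C : Finset (Sym2 (ℤ × ℤ))) (v : ℤ × ℤ) : Prop :=
  ∃ u l, 2 ≤ l.length ∧ (u :: l).Nodup ∧ (u :: (l ++ [u])).IsChain Adj ∧
    C = edges (u :: (l ++ [u])) ∧ swept v (u :: (l ++ [u])) ≠ 0

/-- The loop `C` visits `v` and turns there to its inner side: the other vertices contribute only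
`5` of the `6` turns of `60` degrees. (Otherwise they contribute `7`.) -/
def TurnsIn (C : Finset (Sym2 (ℤ × ℤ))) (v : ℤ × ℤ) : Prop :=
  ∃ l, 2 ≤ l.length ∧ (v :: l).Nodup ∧ (v :: (l ++ [v])).IsChain Adj ∧
    C = edges (v :: (l ++ [v])) ∧ (W (v :: (l ++ [v])) = 5 ∨ W (v :: (l ++ [v])) = -5)

open Classical in
/-- The modified weight of a loop: `n`, or `2 - n ^ 2` for the loops around `v`; for a loop through
`v`, `n` or `2 - n ^ 2` (if it turns at `v` to its inner or outer side), plus `2 cos (6 π / κ)`. -/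
noncomputable def u (κ n : ℝ) (v : ℤ × ℤ) (C : Finset (Sym2 (ℤ × ℤ))) : ℝ :=
  if Visits C v then (if TurnsIn C v then n else 2 - n ^ 2) + 2 * cos (6 * π / κ)
  else if Around C v then 2 - n ^ 2 else n

open Classical in
/-- The sum over all loop configurations in `D`, with the modified weights, and with an additional
factor `3` if no loop visits `v`. -/
noncomputable def Zmod (κ n x : ℝ) (D : Finset (ℤ × ℤ)) (v : ℤ × ℤ) : ℝ :=
  ∑ S ∈ configs D, (if ∃ C ∈ S, Visits C v then 1 else 3) * (∏ C ∈ S, u κ n v C) *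
    x ^ (∑ C ∈ S, C.card)

section Aux

open Pool.Agent.H99B Pool.Agent.H99C Pool.Agent.H99E

theorem edges_eq (l : List (ℤ × ℤ)) : edges l = Pool.Agent.H99B.edges l := by
  induction l with
  | nil => rfl
  | cons a l ih =>
    match l, ih with
    | [], _ => rfl
    | b :: t, ih =>
      rw [edges, ih]
      rfl

theorem isLoop_iff (C : Finset (Sym2 (ℤ × ℤ))) : IsLoop C ↔ Pool.Agent.H99B.IsLoop C := by
  unfold IsLoop Pool.Agent.H99B.IsLoop
  constructor
  · rintro ⟨v, l, h1, h2, h3, h4⟩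
    rw [edges_eq] at h4
    exact ⟨v, l, ⟨h1, h2, h3⟩, h4⟩
  · rintro ⟨v, l, ⟨h1, h2, h3⟩, h4⟩
    rw [← edges_eq] at h4
    exact ⟨v, l, h1, h2, h3, h4⟩

theorem loopsIn_eq (D : Finset (ℤ × ℤ)) : loopsIn D = Pool.Agent.H99B.loopsIn D := by
  classical
  ext C
  rw [mem_loopsIn]
  unfold loopsIn
  rw [Finset.mem_filter, Finset.mem_powerset, isLoop_iff]
  refine and_congr_left fun _ => ?_
  constructor
  · intro h e he v hv
    exact Finset.mem_sym2_iff.1 (h he) v hv
  · intro h e he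
    exact Finset.mem_sym2_iff.2 (h e he)

theorem configs_eq (D : Finset (ℤ × ℤ)) : configs D = Pool.Agent.H99B.configs D := by
  classical
  ext S
  rw [mem_configs]
  unfold configs
  rw [Finset.mem_filter, Finset.mem_powerset, loopsIn_eq]
  exact Iff.rfl

theorem rest_eq (D : Finset (ℤ × ℤ)) (l : List (ℤ × ℤ)) :
    D.filter (fun u => u ∉ l) = rest D l := by
  ext u
  rw [Finset.mem_filter, mem_rest]

theorem Z_eq (n x : ℝ) (D : Finset (ℤ × ℤ)) (l : List (ℤ × ℤ)) : Z n x D l = Lam n x (rest D l) := by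
  unfold Z Lam
  rw [configs_eq, ← rest_eq]
  rfl

theorem W_eq (l : List (ℤ × ℤ)) : W l = H978R2.Hex.W l := by
  induction l with
  | nil => rfl
  | cons a l ih =>
    match l, ih with
    | [], _ => rfl
    | [_], _ => rfl
    | b :: c :: t, ih =>
      rw [W, ih]
      rfl

theorem wt_eq (κ x : ℝ) (l : List (ℤ × ℤ)) : wt κ x l = Fc (π / 2 - π / κ) x l := by
  unfold wt Fc
  rw [W_eq]

theorem nbr_adj (p q : ℤ × ℤ) : Nbr p q ↔ Adj p q := nbr_iff

theorem noHole (D : Finset (ℤ × ℤ)) (h : NoHoles D) : NoHole D := by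
  refine noHole_of fun z hz => ?_
  obtain ⟨u, h1, h2⟩ := h z hz
  refine ⟨u, h1, ?_⟩
  have : (fun p q => Nbr p q ∧ q ∉ D) = (fun p q : ℤ × ℤ => Adj p q ∧ q ∉ D) := by
    funext p q
    rw [nbr_adj]
  rw [this]
  exact h2

theorem bdry_eq (D : Finset (ℤ × ℤ)) : Bdry D = (bd D : Set ((ℤ × ℤ) × (ℤ × ℤ))) := by
  ext e
  rw [Finset.mem_coe, mem_bd]
  unfold Bdry
  rw [Set.mem_ofPred_eq]
  constructor
  · rintro ⟨h1, h2, h3⟩
    exact ⟨h2, h1, h3⟩
  · rintro ⟨h1, h2, h3⟩
    exact ⟨h2, h1, h3⟩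

theorem circ_iff (v : ℤ × ℤ) (l : List (ℤ × ℤ)) :
    (2 ≤ l.length ∧ (v :: l).Nodup ∧ (v :: (l ++ [v])).IsChain Adj) ↔ Circ v l := by
  constructor
  · rintro ⟨h1, h2, h3⟩
    exact ⟨h1, h2, h3⟩
  · rintro ⟨h1, h2, h3⟩
    exact ⟨h1, h2, h3⟩

theorem swept_eq (b : ℤ × ℤ) (l : List (ℤ × ℤ)) : swept b l = H978R2.Hex.wind b l := by
  induction l with
  | nil => rfl
  | cons a l ih =>
    match l, ih with
    | [], _ => rfl
    | q :: t, ih =>
      rw [swept, ih]
      rfl

theorem around_iff (C : Finset (Sym2 (ℤ × ℤ))) (v : ℤ × ℤ) :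
    Around C v ↔ Pool.Agent.H99F.Enc v C := by
  unfold Around Pool.Agent.H99F.Enc
  constructor
  · rintro ⟨w, l, h1, h2, h3, h4, h5⟩
    rw [edges_eq] at h4
    rw [swept_eq] at h5
    exact ⟨w, l, ⟨h1, h2, h3⟩, h4, h5⟩
  · rintro ⟨w, l, ⟨h1, h2, h3⟩, h4, h5⟩
    refine ⟨w, l, h1, h2, h3, ?_, ?_⟩
    · rw [edges_eq]
      exact h4
    · rw [swept_eq]
      exact h5

theorem turnsIn_iff (C : Finset (Sym2 (ℤ × ℤ))) (v : ℤ × ℤ) :
    TurnsIn C v ↔ Pool.Agent.H99F.Cvx v C := by
  unfold TurnsIn Pool.Agent.H99F.Cvx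
  constructor
  · rintro ⟨l, h1, h2, h3, h4, h5⟩
    rw [edges_eq] at h4
    rw [W_eq] at h5
    exact ⟨l, ⟨h1, h2, h3⟩, h4, h5⟩
  · rintro ⟨l, ⟨h1, h2, h3⟩, h4, h5⟩
    refine ⟨l, h1, h2, h3, ?_, ?_⟩
    · rw [edges_eq]
      exact h4
    · rw [W_eq]
      exact h5

theorem pt_of {κ n x : ℝ} (hp : Pr κ n x) : Pool.Agent.H99F.Pt (π / 2 - π / κ) n x := by
  refine ⟨?_, ?_⟩
  · have e : 4 * (π / 2 - π / κ) = 2 * π - 4 * π / κ := by ring
    rw [e, cos_two_pi_sub, hp.hn]
    ring
  · rw [cos_pi_div_two_sub]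
    exact hp.hxx

theorem u_eq {κ n x : ℝ} (hp : Pr κ n x) (v : ℤ × ℤ) (C : Finset (Sym2 (ℤ × ℤ))) :
    u κ n v C = Pool.Agent.H99F.uw (π / 2 - π / κ) v C := by
  have h := pt_of hp
  set c := π / 2 - π / κ with hc
  have h8 := h.cos8
  have h6 : 2 * cos (6 * π / κ) = -(2 * cos (6 * c)) := by
    have e : 6 * c = (π - 6 * π / κ) + 2 * π := by
      rw [hc]
      ring
    rw [e, cos_add_two_pi, cos_pi_sub]
    ring
  have k5 : -(2 * cos (5 * c)) * (2 * cos c) = n - 2 * cos (6 * c) := by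
    have e1 : cos (6 * c) + cos (4 * c) = 2 * cos (5 * c) * cos c := by
      rw [cos_add_cos]
      congr 2
      · ring_nf
      · ring_nf
    rw [h.hn]
    linear_combination 2 * e1
  have k7 : -(2 * cos (7 * c)) * (2 * cos c) = 2 - n ^ 2 - 2 * cos (6 * c) := by
    have e1 : cos (8 * c) + cos (6 * c) = 2 * cos (7 * c) * cos c := by
      rw [cos_add_cos]
      congr 2
      · ring_nf
      · ring_nf
    rw [← h8]
    linear_combination 2 * e1
  unfold u Pool.Agent.H99F.uw Pool.Agent.H99F.kk Pool.Agent.H99F.lv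
  rw [k5, k7, h8, h6, ← h.hn]
  by_cases h1 : Visits C v
  · have h1' : ∃ e ∈ C, v ∈ e := h1
    rw [if_pos h1, if_pos h1']
    by_cases h2 : TurnsIn C v
    · rw [if_pos h2, if_pos ((turnsIn_iff C v).1 h2)]
      ring
    · rw [if_neg h2, if_neg (fun h' => h2 ((turnsIn_iff C v).2 h'))]
      ring
  · have h1' : ¬ ∃ e ∈ C, v ∈ e := h1
    rw [if_neg h1, if_neg h1']
    by_cases h2 : Around C v
    · rw [if_pos h2, if_pos ((around_iff C v).1 h2)]
    · rw [if_neg h2, if_neg (fun h' => h2 ((around_iff C v).2 h'))]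

theorem zmod_eq {κ n x : ℝ} (hp : Pr κ n x) (D : Finset (ℤ × ℤ)) (v : ℤ × ℤ) :
    Zmod κ n x D v = LamW (Pool.Agent.H99F.uw (π / 2 - π / κ) v) x D +
      2 * LamW (Pool.Agent.H99F.uw (π / 2 - π / κ) v) x (D.erase v) := by
  rw [← Pool.Agent.H99F.LamW_three]
  unfold Zmod
  rw [configs_eq]
  refine Finset.sum_congr rfl fun S _ => ?_
  have e : ∏ C ∈ S, u κ n v C = ∏ C ∈ S, Pool.Agent.H99F.uw (π / 2 - π / κ) v C :=
    Finset.prod_congr rfl fun C _ => u_eq hp v C
  rw [e]
  by_cases h : ∃ C ∈ S, Visits C v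
  · have h' : ∃ C ∈ S, ∃ e ∈ C, v ∈ e := h
    rw [if_pos h, if_pos h']
  · have h' : ¬ ∃ C ∈ S, ∃ e ∈ C, v ∈ e := h
    rw [if_neg h, if_neg h']

theorem from_eq (D : Finset (ℤ × ℤ)) {v : ℤ × ℤ} (hv : v ∈ D) :
    From D v = (QQ D v : Set (List (ℤ × ℤ))) := by
  ext l
  rw [Finset.mem_coe, mem_QQ]
  unfold From
  rw [Set.mem_ofPred_eq]
  constructor
  · rintro ⟨h1, h2, z, w, rfl, h3, h4⟩
    refine ⟨z, w, rfl, h2, h1, fun y hy => Finset.mem_erase.2 ⟨?_, h4 y hy⟩, fun h => h3
      (Finset.mem_of_mem_erase h)⟩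
    rintro rfl
    rw [List.nodup_cons] at h1
    have := List.nodup_append.1 h1.2
    exact this.2.2 _ hy _ (by simp) rfl
  · rintro ⟨z, w, rfl, h⟩
    refine ⟨h.nodup, h.chain, z, w, rfl, fun hz => h.out (Finset.mem_erase.2 ⟨?_, hz⟩), fun y hy =>
      Finset.mem_of_mem_erase (h.om y hy)⟩
    rintro rfl
    have := (List.nodup_cons.1 h.nodup).1
    simp at this

theorem rest_QQ {D : Finset (ℤ × ℤ)} {v : ℤ × ℤ} {l : List (ℤ × ℤ)} (hl : l ∈ QQ D v) :
    rest (D.erase v) l = rest D l := by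
  obtain ⟨z, w, rfl, h⟩ := mem_QQ.1 hl
  ext y
  rw [mem_rest, mem_rest, Finset.mem_erase]
  constructor
  · rintro ⟨⟨-, h1⟩, h2⟩
    exact ⟨h1, h2⟩
  · rintro ⟨h1, h2⟩
    refine ⟨⟨?_, h1⟩, h2⟩
    rintro rfl
    exact h2 (by simp)

theorem total_eq {κ n x : ℝ} (hp : Pr κ n x) {D : Finset (ℤ × ℤ)} (hN : NoHole D) {v : ℤ × ℤ}
    (hv : v ∈ D) : ∑ᶠ l ∈ From D v, wt κ x l * Z n x D l = Zmod κ n x D v := by
  rw [zmod_eq hp, ← (pt_of hp).bulk hN hv, from_eq D hv, finsum_mem_coe_finset]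
  refine Finset.sum_congr rfl fun l hl => ?_
  rw [wt_eq, Z_eq, rest_QQ hl]

/-- the boundary edge through which a walk leaves the domain -/
theorem exit_edge {D : Finset (ℤ × ℤ)} {v : ℤ × ℤ} (hv : v ∈ D) {l : List (ℤ × ℤ)}
    (hl : l ∈ QQ D v) : ∃ e ∈ bd D, [e.1, e.2] <+: l := by
  obtain ⟨z, w, rfl, h⟩ := mem_QQ.1 hl
  have hz : z ∉ D := by
    intro hz
    refine h.out (Finset.mem_erase.2 ⟨?_, hz⟩)
    rintro rfl
    have := (List.nodup_cons.1 h.nodup).1
    simp at this
  have hc := h.chain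
  match w, h, hc with
  | [], h, hc =>
    rw [List.nil_append, List.isChain_cons_cons] at hc
    exact ⟨(z, v), mem_bd.2 ⟨hv, hz, hc.1⟩, by simp⟩
  | y :: w, h, hc =>
    rw [List.cons_append, List.isChain_cons_cons] at hc
    exact ⟨(z, y), mem_bd.2 ⟨Finset.mem_of_mem_erase (h.om y (by simp)), hz, hc.1⟩,
      ⟨w ++ [v], by simp⟩⟩

theorem exists_edge' {n x : ℝ} (hn : 0 ≤ n) (hx : 0 ≤ x) {D : Finset (ℤ × ℤ)} {v : ℤ × ℤ}
    (hv : v ∈ D) {κ A : ℝ} (hA : 0 < A)
    (h : A ≤ ∑ l ∈ QQ D v, wt κ x l * Lam n x (rest D l)) :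
    ∃ e ∈ bd D, A ≤ (bd D).card * ∑ᶠ l ∈ {l | l ∈ From D v ∧ [e.1, e.2] <+: l},
      x ^ (l.length - 2) * Z n x D l := by
  classical
  have hF : ∀ l, 0 ≤ x ^ (l.length - 2) * Lam n x (rest D l) := fun l =>
    mul_nonneg (pow_nonneg hx _) (by linarith [Lam_pos hn hx (rest D l)])
  have h1 : ∑ l ∈ QQ D v, wt κ x l * Lam n x (rest D l) ≤
      ∑ l ∈ QQ D v, x ^ (l.length - 2) * Lam n x (rest D l) := by
    refine Finset.sum_le_sum fun l _ => ?_
    have hL := Lam_pos hn hx (rest D l)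
    refine mul_le_mul_of_nonneg_right ?_ (by linarith)
    unfold wt
    exact mul_le_of_le_one_right (pow_nonneg hx _) (cos_le_one _)
  have h2 : ∑ l ∈ QQ D v, x ^ (l.length - 2) * Lam n x (rest D l) ≤
      ∑ e ∈ bd D, ∑ l ∈ (QQ D v).filter (fun l => [e.1, e.2] <+: l),
        x ^ (l.length - 2) * Lam n x (rest D l) := by
    have h3 : ∑ e ∈ bd D, ∑ l ∈ (QQ D v).filter (fun l => [e.1, e.2] <+: l),
        x ^ (l.length - 2) * Lam n x (rest D l) =
        ∑ l ∈ QQ D v, ∑ _e ∈ (bd D).filter (fun e => [e.1, e.2] <+: l),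
        x ^ (l.length - 2) * Lam n x (rest D l) := by
      refine Finset.sum_comm' fun e l => ?_
      rw [Finset.mem_filter, Finset.mem_filter]
      tauto
    rw [h3]
    refine Finset.sum_le_sum fun l hl => ?_
    rw [Finset.sum_const, nsmul_eq_mul]
    obtain ⟨e, he, hel⟩ := exit_edge hv hl
    have h4 : (1 : ℝ) ≤ ((bd D).filter (fun e => [e.1, e.2] <+: l)).card := by
      have : 1 ≤ ((bd D).filter (fun e => [e.1, e.2] <+: l)).card :=
        Finset.card_pos.2 ⟨e, Finset.mem_filter.2 ⟨he, hel⟩⟩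
      exact_mod_cast this
    nlinarith [hF l]
  have h5 := h.trans (h1.trans h2)
  have hne : (bd D).Nonempty := by
    rw [Finset.nonempty_iff_ne_empty]
    intro h0
    rw [h0, Finset.sum_empty] at h5
    linarith
  by_contra hcon
  push Not at hcon
  have h6 : ∀ e ∈ bd D, ∑ᶠ l ∈ {l | l ∈ From D v ∧ [e.1, e.2] <+: l},
      x ^ (l.length - 2) * Z n x D l = ∑ l ∈ (QQ D v).filter (fun l => [e.1, e.2] <+: l),
        x ^ (l.length - 2) * Lam n x (rest D l) := by
    intro e _
    have e1 : {l | l ∈ From D v ∧ [e.1, e.2] <+: l} =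
        ((QQ D v).filter (fun l => [e.1, e.2] <+: l) : Set (List (ℤ × ℤ))) := by
      ext l
      rw [Finset.mem_coe, Finset.mem_filter, Set.mem_ofPred_eq, from_eq D hv, Finset.mem_coe]
    rw [e1, finsum_mem_coe_finset]
    simp only [Z_eq]
  have h7 : ∑ e ∈ bd D, ((bd D).card : ℝ) * ∑ l ∈ (QQ D v).filter (fun l => [e.1, e.2] <+: l),
        x ^ (l.length - 2) * Lam n x (rest D l) < ∑ _e ∈ bd D, A := by
    refine Finset.sum_lt_sum_of_nonempty hne fun e he => ?_
    rw [← h6 e he]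
    exact hcon e he
  rw [← Finset.mul_sum, Finset.sum_const, nsmul_eq_mul] at h7
  have hc : (0 : ℝ) < (bd D).card := by
    have := Finset.card_pos.2 hne
    exact_mod_cast this
  nlinarith

end Aux

open Pool.Agent.H99B Pool.Agent.H99C Pool.Agent.H99E

/-- **Theorem.** Let `n = - 2 cos (4 π / κ)`, `8 / 3 ≤ κ ≤ 8`, let `x` be the critical point with the
parameter `κ`, let `D` be a finite domain without holes and `v` a vertex of `D`.
(1) The total signed weight of the paths from `v` to the outside of `D` (and disjoint loops) is exactly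
the sum `Zmod` over the loop configurations.
(2) If `κ ≤ 3` (`n ≤ 1`, `x = x_c(n)`), then it is at least `3 Z n x D []`, and there is a boundary edge
`e` for which the paths from `v` to `e` have, without the factor `cos`, a total weight of at least
`3 Z n x D [] / |∂D|`.
(3) If `3 ≤ κ ≤ 6` (`n ≥ 1`), then the signed weight in (1) is at most `3 Z n x D []` in absolute
value; and it is equal to `3 Z n x D []` for `κ = 3` (the critical Ising model). -/
theorem result (κ n x : ℝ) (hn : n = -2 * cos (4 * π / κ))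
    (hx : (8 / 3 ≤ κ ∧ κ ≤ 4 ∧ x = (2 + (2 - n) ^ (1 / 2 : ℝ)) ^ (-(1 / 2) : ℝ)) ∨
      (4 ≤ κ ∧ κ ≤ 8 ∧ x = (2 - (2 - n) ^ (1 / 2 : ℝ)) ^ (-(1 / 2) : ℝ)))
    (D : Finset (ℤ × ℤ)) (hD : NoHoles D) (v : ℤ × ℤ) (hv : v ∈ D) :
    ∑ᶠ l ∈ From D v, wt κ x l * Z n x D l = Zmod κ n x D v ∧
    (κ ≤ 3 → 3 * Z n x D [] ≤ ∑ᶠ l ∈ From D v, wt κ x l * Z n x D l ∧
      ∃ e ∈ Bdry D, 3 * Z n x D [] ≤ (Bdry D).ncard *
        ∑ᶠ l ∈ {l | l ∈ From D v ∧ [e.1, e.2] <+: l}, x ^ (l.length - 2) * Z n x D l) ∧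
    (3 ≤ κ → κ ≤ 6 → |∑ᶠ l ∈ From D v, wt κ x l * Z n x D l| ≤ 3 * Z n x D []) ∧
    (κ = 3 → ∑ᶠ l ∈ From D v, wt κ x l * Z n x D l = 3 * Z n x D []) := by
  have hp := pr_of hn hx
  have hN := noHole D hD
  have hpt := pt_of hp
  have hpi := pi_pos
  have hk0 : 0 < κ := by linarith [hp.k1]
  have hnn := hp.n_nonneg
  have e0 : Z n x D [] = Lam n x D := by rw [Z_eq, rest_nil]
  have htot := total_eq hp hN hv
  have low : κ ≤ 3 → 3 * Z n x D [] ≤ Zmod κ n x D v := by
    intro hk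
    have hd : Dil (π / 2 - π / κ) n x := by
      have h1 : π / κ ≤ 3 * π / 8 := hp.ang.2
      have h2 : π / 3 ≤ π / κ := div_le_div_of_nonneg_left hpi.le hk0 hk
      exact ⟨by linarith, by linarith, by rw [hpt.hn], hpt.hx⟩
    rw [e0, zmod_eq hp]
    exact Pool.Agent.H99F.lower hd hv
  have upp : 3 ≤ κ → κ ≤ 6 → |Zmod κ n x D v| ≤ 3 * Z n x D [] := by
    intro h3 h6
    have hn1 : 1 ≤ n := by
      have e1 : 4 * π / κ = 4 * (π / κ) := by ring
      have a1 : π / κ ≤ π / 3 := div_le_div_of_nonneg_left hpi.le (by norm_num) h3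
      have a2 : π / 6 ≤ π / κ := div_le_div_of_nonneg_left hpi.le hk0 h6
      have h1 : cos (4 * π / κ) ≤ -1 / 2 := by
        have e2 : cos (4 * π / κ) = - cos (π - 4 * (π / κ)) := by
          rw [cos_pi_sub, e1, neg_neg]
        have e3 : 1 / 2 ≤ cos (π - 4 * (π / κ)) := by
          rw [← cos_pi_div_three, ← cos_abs (π - 4 * (π / κ))]
          refine cos_le_cos_of_nonneg_of_le_pi (abs_nonneg _) (by linarith) ?_
          rw [abs_le]
          constructor <;> linarith
        rw [e2]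
        linarith
      rw [hn]
      linarith
    have hn2 : n ≤ 2 := by
      rw [hn]
      linarith [neg_one_le_cos (4 * π / κ)]
    rw [e0, zmod_eq hp]
    exact Pool.Agent.H99F.upper hpt.hn hpt.hx hp.hx.le hn1 hn2 (D := D) hv
  refine ⟨htot, fun hk => ⟨?_, ?_⟩, fun h3 h6 => ?_, fun h => ?_⟩
  · rw [htot]
    exact low hk
  · have h1 := low hk
    rw [← htot, from_eq D hv, finsum_mem_coe_finset] at h1
    have hL := Lam_pos hnn hp.hx.le D
    obtain ⟨e, he, h2⟩ := exists_edge' (A := 3 * Z n x D []) (κ := κ) hnn hp.hx.le hv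
      (by rw [e0]; linarith) (by simpa only [Z_eq] using h1)
    refine ⟨e, ?_, ?_⟩
    · rw [bdry_eq]
      exact he
    · rw [bdry_eq, Set.ncard_coe_finset]
      exact h2
  · rw [htot]
    exact upp h3 h6
  · rw [htot]
    exact le_antisymm ((le_abs_self _).trans (upp h.ge (by linarith))) (low h.le)

end Pool.Agent.Results.MP_4960b8_pr.BulkToBoundary
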