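import Pool.Agent.H99B.Loc4

/-!
The loop O(n) model on the honeycomb lattice for ALL `n ∈ [0, 2]`, at both of Nienhuis' points
`x_c(n) = (2 + √(2 - n))^(-1/2)` (`κ ∈ [8/3, 4]`) and `(2 - √(2 - n))^(-1/2) > x_c(n)`
(`κ ∈ [4, 8]`), with `n = - 2 cos (4 π / κ)`: the path from the corner of a lattice wedge of opening
`60 j` degrees, `j = 1, …, 5`.

If `κ ≥ 2 (j + 3) / (j + 1)` then the two-point function does not decay exponentially: in EVERY finite
domain of the wedge which contains the part of the wedge at distance at most `r` from the corner, some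
vertex at distance about `r` has a weight of at least `1 / (300 r)` times the partition function
without a path. For the opening of 300 degrees this holds for all `n ∈ [0, 2]`. In the same case the
weight of the paths which end on the part of the boundary of the domain inside the wedge is at least a
constant times the one of the paths which end on the sides of the wedge. If
`κ < 2 (j + 3) / (j + 1)` then the total weight of the paths, to all parts of the boundary, is bounded
uniformly in the size of the truncated wedge.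

The proof is in `Pool/Agent/H99B/`: the parafermionic identity of Smirnov with loops, for all parts of
all finite domains in the slit plane (`Fin.lean`, `Loc.lean`), and the winding of the paths which end
on the sides of the wedges (starting files `Pool/Agent/H978R2/Hex/`,
`Pool/Agent/H978R3/Wedge/Dom.lean`).
-/

set_option autoImplicit false

namespace Pool.Agent.Results.MP_4960b8_pr.CornerThreshold

open Real

/-- Adjacency in the honeycomb lattice (brick-wall coordinates). -/
def Adj (p q : ℤ × ℤ) : Prop :=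
  q - p = (1, 0) ∨ q - p = (-1, 0) ∨
  (q - p = (0, 1) ∧ Even (p.1 + p.2)) ∨
  (q - p = (0, -1) ∧ Even (q.1 + q.2))

/-- The edges of the path with the given list of vertices. -/
def edges : List (ℤ × ℤ) → Finset (Sym2 (ℤ × ℤ))
  | a :: b :: t => insert s(a, b) (edges (b :: t))
  | _ => ∅

/-- A closed loop, as a set of edges: the edges of a closed path `v, l, v` without other
coincidences. -/
def IsLoop (C : Finset (Sym2 (ℤ × ℤ))) : Prop :=
  ∃ v l, 2 ≤ l.length ∧ (v :: l).Nodup ∧ (v :: (l ++ [v])).IsChain Adj ∧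
    C = edges (v :: (l ++ [v]))

open Classical in
/-- The loops in `D`. -/
noncomputable def loopsIn (D : Finset (ℤ × ℤ)) : Finset (Finset (Sym2 (ℤ × ℤ))) :=
  D.sym2.powerset.filter IsLoop

open Classical in
/-- The loop configurations in `D`: the sets of loops in `D` without common vertices. -/
noncomputable def configs (D : Finset (ℤ × ℤ)) : Finset (Finset (Finset (Sym2 (ℤ × ℤ)))) :=
  (loopsIn D).powerset.filter
    (fun S => ∀ C ∈ S, ∀ C' ∈ S, ∀ e ∈ C, ∀ e' ∈ C', ∀ v ∈ e, v ∈ e' → C = C')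

/-- The partition function without a path: the sum of `n ^ (number of loops) x ^ (number of edges)`
over the loop configurations in `D` (`0 ^ 0 = 1`). -/
noncomputable def Z₀ (n x : ℝ) (D : Finset (ℤ × ℤ)) : ℝ :=
  ∑ S ∈ configs D, n ^ S.card * x ^ (∑ C ∈ S, C.card)

/-- The self-avoiding paths `(0, 0), (1, 0), …` through `D` with the end vertex in `R`; the end
vertex may be in `D` or not. -/
def Paths (D : Finset (ℤ × ℤ)) (R : Set (ℤ × ℤ)) : Set (List (ℤ × ℤ)) :=
  {l | (∃ t, l = (0, 0) :: (1, 0) :: t) ∧ (∃ z ∈ R, l.getLast? = some z) ∧ l.Nodup ∧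
    l.IsChain Adj ∧ ∀ v ∈ l.tail.dropLast, v ∈ D}

/-- The sum of `x ^ L n ^ M` over the configurations which consist of a path from `(0, 0)` to `R`
and of `M` loops, where `L` is the total number of edges: the sum over the path and over the loop
configurations in the part of `D` not visited by the path. -/
noncomputable def Z (n x : ℝ) (D : Finset (ℤ × ℤ)) (R : Set (ℤ × ℤ)) : ℝ :=
  ∑ᶠ l ∈ Paths D R, x ^ (l.length - 1) * Z₀ n x (D.filter (fun v => v ∉ l))

/-- The infinite lattice wedge of opening `60 j` degrees, `j = 1, …, 5`, with its corner next to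
`(0, 0)`. The half plane (`j = 3`) is `x - y ≥ 1`. -/
def Wedge (j : ℕ) (v : ℤ × ℤ) : Prop :=
  match j with
  | 1 => v.2 ≤ 0 ∧ 0 ≤ v.1 + v.2 ∧ v ≠ (0, 0)
  | 2 => v.2 ≤ 0 ∧ 1 ≤ v.1 - v.2
  | 3 => 1 ≤ v.1 - v.2
  | 4 => (v.2 = 0 → 1 ≤ v.1) ∧ (1 ≤ v.2 → 1 ≤ v.1 - v.2)
  | _ => (v.2 = 0 → 1 ≤ v.1) ∧ (1 ≤ v.2 → 2 ≤ v.1 + v.2)

/-- The lattice hexagon of radius `N`. -/
def Hexagon (N : ℕ) (v : ℤ × ℤ) : Prop :=
  -(N : ℤ) ≤ v.2 ∧ v.2 ≤ N ∧ -2 * (N : ℤ) ≤ v.1 + v.2 ∧ v.1 + v.2 ≤ 2 * N + 1 ∧
    -2 * (N : ℤ) + 1 ≤ v.1 - v.2 ∧ v.1 - v.2 ≤ 2 * N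

open Classical in
/-- The truncated wedge. -/
noncomputable def Sector (j N : ℕ) : Finset (ℤ × ℤ) :=
  (Finset.Icc (-2 * (N : ℤ)) (2 * N) ×ˢ Finset.Icc (-(N : ℤ)) N).filter
    (fun v => Wedge j v ∧ Hexagon N v)

open Classical in
/-- The vertices of `D` at distance `r` from the corner, up to one step. -/
noncomputable def Ring (r : ℕ) (D : Finset (ℤ × ℤ)) : Finset (ℤ × ℤ) :=
  D.filter (fun w => ¬ Hexagon (r - 1) w ∧ Hexagon (r + 1) w)

/-- The two points of the O(n) model: `x = x_c(n)` with `κ ∈ [8/3, 4]` as in Q1, and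
`x = (2 - √(2 - n))^(-1/2)`, larger than `x_c(n)` for `n < 2`, with `κ ∈ [4, 8]` as in Q2. -/
def Nienhuis (κ n x : ℝ) : Prop :=
  n = -2 * cos (4 * π / κ) ∧
    ((8 / 3 ≤ κ ∧ κ ≤ 4 ∧ x = (2 + (2 - n) ^ (1 / 2 : ℝ)) ^ (-(1 / 2) : ℝ)) ∨
      (4 ≤ κ ∧ κ ≤ 8 ∧ x = (2 - (2 - n) ^ (1 / 2 : ℝ)) ^ (-(1 / 2) : ℝ)))

section Aux

open Pool.Agent.H99B

theorem adj_eq : Adj = H978R2.Hex.Adj := rfl

theorem edges_eq (l : List (ℤ × ℤ)) : edges l = Pool.Agent.H99B.edges l := by
  induction l with
  | nil => rfl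
  | cons a l ih =>
    match l, ih with
    | [], _ => rfl
    | b :: t, ih =>
      rw [edges, ih]
      rfl

theorem isLoop_iff (C : Finset (Sym2 (ℤ × ℤ))) : IsLoop C ↔ Pool.Agent.H99B.IsLoop C := by
  unfold IsLoop Pool.Agent.H99B.IsLoop
  constructor
  · rintro ⟨v, l, h1, h2, h3, h4⟩
    rw [edges_eq] at h4
    exact ⟨v, l, ⟨h1, h2, h3⟩, h4⟩
  · rintro ⟨v, l, ⟨h1, h2, h3⟩, h4⟩
    rw [← edges_eq] at h4
    exact ⟨v, l, h1, h2, h3, h4⟩

theorem loopsIn_eq (D : Finset (ℤ × ℤ)) : loopsIn D = Pool.Agent.H99B.loopsIn D := by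
  classical
  ext C
  rw [mem_loopsIn]
  unfold loopsIn
  rw [Finset.mem_filter, Finset.mem_powerset, isLoop_iff]
  refine and_congr_left fun _ => ?_
  constructor
  · intro h e he v hv
    exact Finset.mem_sym2_iff.1 (h he) v hv
  · intro h e he
    exact Finset.mem_sym2_iff.2 (h e he)

theorem configs_eq (D : Finset (ℤ × ℤ)) : configs D = Pool.Agent.H99B.configs D := by
  classical
  ext S
  rw [mem_configs]
  unfold configs
  rw [Finset.mem_filter, Finset.mem_powerset, loopsIn_eq]
  exact Iff.rfl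

theorem Z₀_eq (n x : ℝ) (D : Finset (ℤ × ℤ)) : Z₀ n x D = Lam n x D := by
  unfold Z₀ Lam
  rw [configs_eq]
  rfl

theorem Z_eq (n x : ℝ) (D : Finset (ℤ × ℤ)) (R : Set (ℤ × ℤ)) :
    Z n x D R = Zw2 n x D (fun z => z ∈ R) := by
  unfold Z Zw2
  refine finsum_congr fun l => ?_
  refine finsum_congr fun _ => ?_
  rw [Z₀_eq]
  rfl

theorem wedge_iff {j : ℕ} (h1 : 1 ≤ j) (h5 : j ≤ 5) (v : ℤ × ℤ) : Wedge j v ↔ Wk j v := by
  have h0 : v ≠ (0, 0) ↔ ¬ (v.1 = 0 ∧ v.2 = 0) := by
    rw [ne_eq, Prod.ext_iff]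
  unfold Wk
  interval_cases j <;> norm_num [Wedge, h0] <;> omega

theorem sector_eq {j : ℕ} (h1 : 1 ≤ j) (h5 : j ≤ 5) (N : ℕ) : Sector j N = Sc j N := by
  classical
  ext v
  rw [mem_Sc]
  unfold Sector
  rw [Finset.mem_filter, Finset.mem_product, Finset.mem_Icc, Finset.mem_Icc, wedge_iff h1 h5]
  constructor
  · exact fun h => h.2
  · intro h
    have h2 := h.2
    unfold Hg at h2
    exact ⟨⟨⟨by omega, by omega⟩, by omega, by omega⟩, h⟩

theorem ring_eq (r : ℕ) (D : Finset (ℤ × ℤ)) : Ring r D = Rg r D := by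
  classical
  ext w
  rw [mem_Rg]
  unfold Ring
  rw [Finset.mem_filter]
  exact Iff.rfl

end Aux

open Pool.Agent.H99B

/-- **Theorem.** Let `n ∈ [0, 2]`, `x` one of the two points, `κ` the corresponding parameter,
`1 ≤ j ≤ 5`.
If `κ ≥ 2 (j + 3) / (j + 1)`, then for every finite domain `D` of the wedge of opening `60 j` degrees:
(1) for every `r ≥ 1` such that `D` contains the truncated wedge of radius `r`, the weights of the
paths to the vertices of `D` at distance about `r` sum up to at least `2 / 5` of the partition function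
without a path, and one of them is at least `1 / (300 r)` of it;
(2) the weight of the paths which end outside `D` inside the wedge is at least
`x cos (π / 4 - π / (2 κ))` times the partition function without a path plus
`|cos ((j + 3) (π / 4 - π / (2 κ)))|` times the weight of the paths which end on the sides of the
wedge.
(3) If `κ < 2 (j + 3) / (j + 1)`: in the truncated wedges of all sizes the total weight of the paths
which end outside the domain is at most a constant times the partition function without a path. -/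
theorem result (κ n x : ℝ) (hN : Nienhuis κ n x) (j : ℕ) (h1 : 1 ≤ j) (h5 : j ≤ 5) :
    (2 * ((j : ℝ) + 3) ≤ (j + 1) * κ → ∀ D : Finset (ℤ × ℤ), (∀ v ∈ D, Wedge j v) → (1, 0) ∈ D →
      (∀ r : ℕ, 1 ≤ r → Sector j r ⊆ D →
        2 / 5 * Z₀ n x D ≤ ∑ w ∈ Ring r D, Z n x D {w} ∧
        ∃ w ∈ Ring r D, Z₀ n x D / (300 * r) ≤ Z n x D {w}) ∧
      x * cos (π / 4 - π / (2 * κ)) * Z₀ n x D +
          |cos (((j : ℝ) + 3) * (π / 4 - π / (2 * κ)))| * Z n x D {z | ¬ Wedge j z} ≤
        Z n x D {z | Wedge j z ∧ z ∉ D}) ∧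
    ((j + 1) * κ < 2 * ((j : ℝ) + 3) → ∀ N : ℕ, 1 ≤ N →
      Z n x (Sector j N) {z | z ∉ Sector j N} ≤
        x / cos (((j : ℝ) + 3) * (π / 4 - π / (2 * κ))) * Z₀ n x (Sector j N)) := by
  have hp : Pr κ n x := pr_of hN.1 hN.2
  have hpi := pi_pos
  have hn := hp.n_nonneg
  have hx := hp.hx
  constructor
  · intro hj D hD h10
    have hD' : ∀ v ∈ D, Wk j v := fun v hv => (wedge_iff h1 h5 v).1 (hD v hv)
    constructor
    · intro r hr hS
      rw [sector_eq h1 h5] at hS
      obtain ⟨q1, w0, hw0, q2⟩ := ring_lower hp h1 h5 hj hr hS hD'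
      have e0 : ∀ w ∈ Rg r D, Z n x D {w} = Gr n x D w := by
        intro w hw
        rw [Z_eq]
        have e3 : (fun z => z ∈ ({w} : Set (ℤ × ℤ))) = fun z => z = w := by
          funext z
          exact propext Set.mem_singleton_iff
        rw [e3]
        exact Zw2_in n x h10 (mem_Rg.1 hw).1
      rw [ring_eq, Z₀_eq]
      refine ⟨?_, w0, hw0, ?_⟩
      · rw [Finset.sum_congr rfl e0]
        exact q1
      · rw [e0 w0 hw0]
        exact q2
    · have hlow := wedge_lower hp h1 h5 hj hD' h10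
      have e1 : Z n x D {z | ¬ Wedge j z} = x * Ms n x D (fun z => ¬ Wk j z) := by
        rw [Z_eq]
        have : (fun z => z ∈ {z | ¬ Wedge j z}) = fun z => ¬ Wk j z := by
          funext z
          exact propext (not_congr (wedge_iff h1 h5 z))
        rw [this]
        exact Zw2_out n x hD' h10 _ fun z hz hzD => hz (hD' z hzD)
      have e2 : Z n x D {z | Wedge j z ∧ z ∉ D} = x * Ms n x D (Wk j) := by
        rw [Z_eq]
        have : (fun z => z ∈ {z | Wedge j z ∧ z ∉ D}) = fun z => Wk j z ∧ z ∉ D := by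
          funext z
          exact propext (and_congr_left fun _ => wedge_iff h1 h5 z)
        rw [this, Zw2_out n x hD' h10 (fun z => Wk j z ∧ z ∉ D) fun z hz => hz.2]
        congr 1
        unfold Ms
        refine Finset.sum_congr rfl fun m _ => ?_
        congr 1
        refine Finset.sum_congr (Finset.filter_congr fun l hl => ?_) fun _ _ => rfl
        exact and_iff_left (Finset.mem_filter.1 hl).2
      rw [e1, e2, Z₀_eq]
      have := mul_le_mul_of_nonneg_left hlow hx.le
      linarith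
  · intro hj N hN1
    rw [sector_eq h1 h5, Z₀_eq, Z_eq]
    have hD' : ∀ v ∈ Sc j N, Wk j v := fun v hv => (mem_Sc.1 hv).1
    have e4 : (fun z => z ∈ {z | z ∉ Sc j N}) = fun z => z ∉ Sc j N := rfl
    rw [e4, Zw2_out n x hD' (base_Sc hN1) (fun z => z ∉ Sc j N) fun z hz => hz]
    obtain ⟨hpos, hup⟩ := wedge_upper hp h1 h5 hN1 hj
    have := mul_le_mul_of_nonneg_left hup hx.le
    calc x * Ms n x (Sc j N) (fun z => z ∉ Sc j N) ≤ _ := this
      _ = _ := by ring

end Pool.Agent.Results.MP_4960b8_pr.CornerThreshold
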