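import Pool.Agent.H99B.Kap
import Pool.Agent.H99F.Fin

/-!
The critical loop O(n) model on the honeycomb lattice, for ALL `n ∈ [0, 2]` and both critical points
(`κ ∈ [8/3, 4]`: `x = x_c(n)`; `κ ∈ [4, 8]`: the second Nienhuis point, `x > x_c(n)` for `n < 2`;
`n = - 2 cos (4 π / κ)`), in finite domains `D` without holes: an EXACT formula for the effect of a
crossing path on the probability that a given vertex `v` of `D` is covered, that is visited by the
path or by a loop.

For a boundary edge `e` let `Q_e` be the signed measure on the configurations which consist of a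
path which crosses `D` with an end at `e`, and of disjoint loops, with the weights
`x ^ L n ^ M cos (c W)`; here `W` is the number of left turns minus the number of right turns of the
path and `c = π / 2 - π / κ`. Its total mass is the one of the measure `P` without a path (a form of
the parafermionic identity, with loops). The theorem says (after division by the total mass)

  `∑_e (Q_e (v is covered) - P (v is covered)) = ∑_S (3 if v is not covered) x ^ L ∏_C u(C) / Z`,

a sum over the loop configurations `S` without a path, in which the loops around `v` have the weight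
`2 - n ^ 2` instead of `n`, and a loop through `v` has the weight `n + 2 cos (6 π / κ)` or
`2 - n ^ 2 + 2 cos (6 π / κ)`. (For the exponents predicted by conformal field theory both sides agree:
`2 - 2 (6 - κ) / (2 κ) - (κ - 2)` for the boundary exponents of the two ends and the thermal exponent
`κ - 2`, and minus the exponent `κ - 5 + 6 / κ` of the loop weight `2 - n ^ 2`, if `κ ≤ 4`.) From this:
the right side is at least `3` for `κ ≤ 3` (`n ≤ 1`, `x = x_c(n)`), equal to `3` for `κ = 3` (critical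
Ising model), and at most `3` in absolute value for `3 ≤ κ ≤ 6` (`1 ≤ n ≤ 2`, both critical points).

The three comes from the three edges at `v`: the paths from the boundary to `v` are reversed, and the
parafermionic identity is used a second time for the starting point `v` in the bulk.

The proof is in `Pool/Agent/H99C/` (identity with surrounding loops: `IdentW.lean`),
`Pool/Agent/H99E/` and `Pool/Agent/H99F/`. This replaces `BulkCoverage`.
-/

set_option autoImplicit false

namespace Pool.Agent.Results.MP_4960b8_pr.ExactCoverage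

open Real

/-- Adjacency in the honeycomb lattice (brick-wall coordinates). -/
def Adj (p q : ℤ × ℤ) : Prop :=
  q - p = (1, 0) ∨ q - p = (-1, 0) ∨
  (q - p = (0, 1) ∧ Even (p.1 + p.2)) ∨
  (q - p = (0, -1) ∧ Even (q.1 + q.2))

/-- The edges of the path with the given list of vertices. -/
def edges : List (ℤ × ℤ) → Finset (Sym2 (ℤ × ℤ))
  | a :: b :: t => insert s(a, b) (edges (b :: t))
  | _ => ∅

/-- A closed loop, as a set of edges: the edges of a closed path `v, l, v` without other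
coincidences. -/
def IsLoop (C : Finset (Sym2 (ℤ × ℤ))) : Prop :=
  ∃ v l, 2 ≤ l.length ∧ (v :: l).Nodup ∧ (v :: (l ++ [v])).IsChain Adj ∧
    C = edges (v :: (l ++ [v]))

open Classical in
/-- The loops in `D`. -/
noncomputable def loopsIn (D : Finset (ℤ × ℤ)) : Finset (Finset (Sym2 (ℤ × ℤ))) :=
  D.sym2.powerset.filter IsLoop

open Classical in
/-- The loop configurations in `D`: the sets of loops in `D` without common vertices. -/
noncomputable def configs (D : Finset (ℤ × ℤ)) : Finset (Finset (Finset (Sym2 (ℤ × ℤ)))) :=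
  (loopsIn D).powerset.filter
    (fun S => ∀ C ∈ S, ∀ C' ∈ S, ∀ e ∈ C, ∀ e' ∈ C', ∀ v ∈ e, v ∈ e' → C = C')

open Classical in
/-- The sum of `n ^ (number of loops) x ^ (number of edges)` over the loop configurations in the part
of `D` not visited by the path `l` (`0 ^ 0 = 1`). For `l = []` this is the partition function
without a path. -/
noncomputable def Z (n x : ℝ) (D : Finset (ℤ × ℤ)) (l : List (ℤ × ℤ)) : ℝ :=
  ∑ S ∈ configs (D.filter (fun u => u ∉ l)), n ^ S.card * x ^ (∑ C ∈ S, C.card)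

open Classical in
/-- The same sum over the loop configurations for which `v` is covered: `v` is on the path `l` or on
one of the loops. -/
noncomputable def Zcov (n x : ℝ) (D : Finset (ℤ × ℤ)) (v : ℤ × ℤ) (l : List (ℤ × ℤ)) : ℝ :=
  ∑ S ∈ (configs (D.filter (fun u => u ∉ l))).filter
    (fun S => v ∈ l ∨ ∃ C ∈ S, ∃ e ∈ C, v ∈ e), n ^ S.card * x ^ (∑ C ∈ S, C.card)

/-- `D` has no holes: every vertex outside of `D` can be joined by a path outside of `D` to a vertex
which is below all vertices of `D`. -/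
def NoHoles (D : Finset (ℤ × ℤ)) : Prop :=
  ∀ z, z ∉ D → ∃ u, (∀ v ∈ D, u.2 < v.2) ∧
    Relation.ReflTransGen (fun p q => Adj p q ∧ q ∉ D) z u

/-- The self-avoiding paths which cross `D`, as lists of vertices: the first and the last vertex are
outside of `D`, and the other vertices (at least one) are in `D`. -/
def Cross (D : Finset (ℤ × ℤ)) : Set (List (ℤ × ℤ)) :=
  {l | l.Nodup ∧ l.IsChain Adj ∧ ∃ p w q, l = p :: (w ++ [q]) ∧ w ≠ [] ∧ p ∉ D ∧ q ∉ D ∧
    ∀ v ∈ w, v ∈ D}

/-- The boundary edges of `D`, directed into `D`. -/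
def Bdry (D : Finset (ℤ × ℤ)) : Set ((ℤ × ℤ) × (ℤ × ℤ)) :=
  {e | e.1 ∉ D ∧ e.2 ∈ D ∧ Adj e.1 e.2}

/-- Twice the height of a vertex; the vertex `v` is at the point `(√3 / 2 * v.1, ht v / 2)` of the
plane, and all edges have the length 1. -/
def ht (v : ℤ × ℤ) : ℤ := 3 * v.2 - (v.1 + v.2) % 2

/-- The turn at `b` of the path `a, b, c`: `1` to the left, `-1` to the right. -/
def turn (a b c : ℤ × ℤ) : ℤ :=
  ((b.1 - a.1) * (ht c - ht b) - (ht b - ht a) * (c.1 - b.1)) / 2

/-- The number of right turns minus the number of left turns of a path. -/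
def W : List (ℤ × ℤ) → ℤ
  | a :: b :: c :: t => turn c b a + W (b :: c :: t)
  | _ => 0

/-- The signed weight of a path which crosses `D`; the number of its vertices in `D` is the number
of its edges, if both boundary edges are counted with `1 / 2`. -/
noncomputable def wt (κ x : ℝ) (l : List (ℤ × ℤ)) : ℝ :=
  x ^ (l.length - 2) * cos (W l * (π / 2 - π / κ))

/-- The point of the plane with the vertex `v`. -/
noncomputable def pos (v : ℤ × ℤ) : ℂ := ⟨√3 / 2 * (v.1 : ℝ), (ht v : ℝ) / 2⟩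

/-- The angle swept by a path, seen from the vertex `b`: the sum of the angles at `b` of all its
edges, in `(-π, π]`. -/
noncomputable def swept (b : ℤ × ℤ) : List (ℤ × ℤ) → ℝ
  | p :: q :: t => Complex.arg ((pos p - pos b) / (pos q - pos b)) + swept b (q :: t)
  | _ => 0

/-- The loop `C` visits the vertex `v`. -/
def Visits (C : Finset (Sym2 (ℤ × ℤ))) (v : ℤ × ℤ) : Prop := ∃ e ∈ C, v ∈ e

/-- The loop `C`, which does not visit `v`, winds around `v`. -/
def Around (C : Finset (Sym2 (ℤ × ℤ))) (v : ℤ × ℤ) : Prop :=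
  ∃ u l, 2 ≤ l.length ∧ (u :: l).Nodup ∧ (u :: (l ++ [u])).IsChain Adj ∧
    C = edges (u :: (l ++ [u])) ∧ swept v (u :: (l ++ [u])) ≠ 0

/-- The loop `C` visits `v` and turns there to its inner side: the other vertices contribute only
`5` of the `6` turns of `60` degrees. (Otherwise they contribute `7`.) -/
def TurnsIn (C : Finset (Sym2 (ℤ × ℤ))) (v : ℤ × ℤ) : Prop :=
  ∃ l, 2 ≤ l.length ∧ (v :: l).Nodup ∧ (v :: (l ++ [v])).IsChain Adj ∧
    C = edges (v :: (l ++ [v])) ∧ (W (v :: (l ++ [v])) = 5 ∨ W (v :: (l ++ [v])) = -5)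

open Classical in
/-- The modified weight of a loop: `n`, or `2 - n ^ 2` for the loops around `v`; for a loop through
`v`, `n` or `2 - n ^ 2` (if it turns at `v` to its inner or outer side), plus `2 cos (6 π / κ)`. -/
noncomputable def u (κ n : ℝ) (v : ℤ × ℤ) (C : Finset (Sym2 (ℤ × ℤ))) : ℝ :=
  if Visits C v then (if TurnsIn C v then n else 2 - n ^ 2) + 2 * cos (6 * π / κ)
  else if Around C v then 2 - n ^ 2 else n

open Classical in
/-- The sum over all loop configurations in `D`, with the modified weights, and with an additional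
factor `3` if no loop visits `v`. -/
noncomputable def Zmod (κ n x : ℝ) (D : Finset (ℤ × ℤ)) (v : ℤ × ℤ) : ℝ :=
  ∑ S ∈ configs D, (if ∃ C ∈ S, Visits C v then 1 else 3) * (∏ C ∈ S, u κ n v C) *
    x ^ (∑ C ∈ S, C.card)

/-- The signed weight of the configurations with a crossing path for which `v` is covered, minus the
number of the boundary edges times the weight of the configurations without a path for which `v` is
covered. -/
noncomputable def excess (κ n x : ℝ) (D : Finset (ℤ × ℤ)) (v : ℤ × ℤ) : ℝ :=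
  ∑ᶠ l ∈ Cross D, wt κ x l * Zcov n x D v l - (Bdry D).ncard * Zcov n x D v []

section Aux

open Pool.Agent.H99B Pool.Agent.H99C Pool.Agent.H99E

theorem edges_eq (l : List (ℤ × ℤ)) : edges l = Pool.Agent.H99B.edges l := by
  induction l with
  | nil => rfl
  | cons a l ih =>
    match l, ih with
    | [], _ => rfl
    | b :: t, ih =>
      rw [edges, ih]
      rfl

theorem isLoop_iff (C : Finset (Sym2 (ℤ × ℤ))) : IsLoop C ↔ Pool.Agent.H99B.IsLoop C := by
  unfold IsLoop Pool.Agent.H99B.IsLoop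
  constructor
  · rintro ⟨v, l, h1, h2, h3, h4⟩
    rw [edges_eq] at h4
    exact ⟨v, l, ⟨h1, h2, h3⟩, h4⟩
  · rintro ⟨v, l, ⟨h1, h2, h3⟩, h4⟩
    rw [← edges_eq] at h4
    exact ⟨v, l, h1, h2, h3, h4⟩

theorem loopsIn_eq (D : Finset (ℤ × ℤ)) : loopsIn D = Pool.Agent.H99B.loopsIn D := by
  classical
  ext C
  rw [mem_loopsIn]
  unfold loopsIn
  rw [Finset.mem_filter, Finset.mem_powerset, isLoop_iff]
  refine and_congr_left fun _ => ?_
  constructor
  · intro h e he v hv
    exact Finset.mem_sym2_iff.1 (h he) v hv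
  · intro h e he
    exact Finset.mem_sym2_iff.2 (h e he)

theorem configs_eq (D : Finset (ℤ × ℤ)) : configs D = Pool.Agent.H99B.configs D := by
  classical
  ext S
  rw [mem_configs]
  unfold configs
  rw [Finset.mem_filter, Finset.mem_powerset, loopsIn_eq]
  exact Iff.rfl

theorem rest_eq (D : Finset (ℤ × ℤ)) (l : List (ℤ × ℤ)) :
    D.filter (fun u => u ∉ l) = rest D l := by
  ext u
  rw [Finset.mem_filter, mem_rest]

theorem Z_eq (n x : ℝ) (D : Finset (ℤ × ℤ)) (l : List (ℤ × ℤ)) : Z n x D l = Lam n x (rest D l) := by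
  unfold Z Lam
  rw [configs_eq, ← rest_eq]
  rfl

theorem Zcov_eq (n x : ℝ) (D : Finset (ℤ × ℤ)) (v : ℤ × ℤ) (l : List (ℤ × ℤ)) :
    Zcov n x D v l = cov n x D v l := by
  rw [← sum_cov, ← rest_eq]
  unfold Zcov
  rw [configs_eq]
  rfl

theorem W_eq (l : List (ℤ × ℤ)) : W l = H978R2.Hex.W l := by
  induction l with
  | nil => rfl
  | cons a l ih =>
    match l, ih with
    | [], _ => rfl
    | [_], _ => rfl
    | b :: c :: t, ih =>
      rw [W, ih]
      rfl

theorem wt_eq (κ x : ℝ) (l : List (ℤ × ℤ)) : wt κ x l = Fc (π / 2 - π / κ) x l := by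
  unfold wt Fc
  rw [W_eq]

theorem nbr_adj (p q : ℤ × ℤ) : Nbr p q ↔ Adj p q := nbr_iff

theorem cross_eq (D : Finset (ℤ × ℤ)) (l : List (ℤ × ℤ)) : l ∈ Cross D ↔ l ∈ CC D := by
  rw [← cross_iff (S := (D : Set (ℤ × ℤ))) (fun v => by simp)]
  unfold Cross Pool.Agent.H99C.Cross
  simp only [Set.mem_ofPred_eq, Finset.mem_coe]
  refine and_congr_right fun _ => and_congr_left fun _ => ?_
  have : Nbr = Adj := by
    funext p q
    exact propext (nbr_adj p q)
  rw [this]

theorem noHole (D : Finset (ℤ × ℤ)) (h : NoHoles D) : NoHole D := by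
  refine noHole_of fun z hz => ?_
  obtain ⟨u, h1, h2⟩ := h z hz
  refine ⟨u, h1, ?_⟩
  have : (fun p q => Nbr p q ∧ q ∉ D) = (fun p q : ℤ × ℤ => Adj p q ∧ q ∉ D) := by
    funext p q
    rw [nbr_adj]
  rw [this]
  exact h2

theorem bdry_eq (D : Finset (ℤ × ℤ)) : Bdry D = (bd D : Set ((ℤ × ℤ) × (ℤ × ℤ))) := by
  ext e
  rw [Finset.mem_coe, mem_bd]
  unfold Bdry
  rw [Set.mem_ofPred_eq]
  constructor
  · rintro ⟨h1, h2, h3⟩
    exact ⟨h2, h1, h3⟩
  · rintro ⟨h1, h2, h3⟩
    exact ⟨h2, h1, h3⟩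

theorem circ_iff (v : ℤ × ℤ) (l : List (ℤ × ℤ)) :
    (2 ≤ l.length ∧ (v :: l).Nodup ∧ (v :: (l ++ [v])).IsChain Adj) ↔ Circ v l := by
  constructor
  · rintro ⟨h1, h2, h3⟩
    exact ⟨h1, h2, h3⟩
  · rintro ⟨h1, h2, h3⟩
    exact ⟨h1, h2, h3⟩

theorem swept_eq (b : ℤ × ℤ) (l : List (ℤ × ℤ)) : swept b l = H978R2.Hex.wind b l := by
  induction l with
  | nil => rfl
  | cons a l ih =>
    match l, ih with
    | [], _ => rfl
    | q :: t, ih =>
      rw [swept, ih]
      rfl

theorem around_iff (C : Finset (Sym2 (ℤ × ℤ))) (v : ℤ × ℤ) :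
    Around C v ↔ Pool.Agent.H99F.Enc v C := by
  unfold Around Pool.Agent.H99F.Enc
  constructor
  · rintro ⟨w, l, h1, h2, h3, h4, h5⟩
    rw [edges_eq] at h4
    rw [swept_eq] at h5
    exact ⟨w, l, ⟨h1, h2, h3⟩, h4, h5⟩
  · rintro ⟨w, l, ⟨h1, h2, h3⟩, h4, h5⟩
    refine ⟨w, l, h1, h2, h3, ?_, ?_⟩
    · rw [edges_eq]
      exact h4
    · rw [swept_eq]
      exact h5

theorem turnsIn_iff (C : Finset (Sym2 (ℤ × ℤ))) (v : ℤ × ℤ) :
    TurnsIn C v ↔ Pool.Agent.H99F.Cvx v C := by
  unfold TurnsIn Pool.Agent.H99F.Cvx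
  constructor
  · rintro ⟨l, h1, h2, h3, h4, h5⟩
    rw [edges_eq] at h4
    rw [W_eq] at h5
    exact ⟨l, ⟨h1, h2, h3⟩, h4, h5⟩
  · rintro ⟨l, ⟨h1, h2, h3⟩, h4, h5⟩
    refine ⟨l, h1, h2, h3, ?_, ?_⟩
    · rw [edges_eq]
      exact h4
    · rw [W_eq]
      exact h5

theorem pt_of {κ n x : ℝ} (hp : Pr κ n x) : Pool.Agent.H99F.Pt (π / 2 - π / κ) n x := by
  refine ⟨?_, ?_⟩
  · have e : 4 * (π / 2 - π / κ) = 2 * π - 4 * π / κ := by ring
    rw [e, cos_two_pi_sub, hp.hn]
    ring
  · rw [cos_pi_div_two_sub]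
    exact hp.hxx

theorem u_eq {κ n x : ℝ} (hp : Pr κ n x) (v : ℤ × ℤ) (C : Finset (Sym2 (ℤ × ℤ))) :
    u κ n v C = Pool.Agent.H99F.uw (π / 2 - π / κ) v C := by
  have h := pt_of hp
  set c := π / 2 - π / κ with hc
  have h8 := h.cos8
  have h6 : 2 * cos (6 * π / κ) = -(2 * cos (6 * c)) := by
    have e : 6 * c = (π - 6 * π / κ) + 2 * π := by
      rw [hc]
      ring
    rw [e, cos_add_two_pi, cos_pi_sub]
    ring
  have k5 : -(2 * cos (5 * c)) * (2 * cos c) = n - 2 * cos (6 * c) := by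
    have e1 : cos (6 * c) + cos (4 * c) = 2 * cos (5 * c) * cos c := by
      rw [cos_add_cos]
      congr 2
      · ring_nf
      · ring_nf
    rw [h.hn]
    linear_combination 2 * e1
  have k7 : -(2 * cos (7 * c)) * (2 * cos c) = 2 - n ^ 2 - 2 * cos (6 * c) := by
    have e1 : cos (8 * c) + cos (6 * c) = 2 * cos (7 * c) * cos c := by
      rw [cos_add_cos]
      congr 2
      · ring_nf
      · ring_nf
    rw [← h8]
    linear_combination 2 * e1
  unfold u Pool.Agent.H99F.uw Pool.Agent.H99F.kk Pool.Agent.H99F.lv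
  rw [k5, k7, h8, h6, ← h.hn]
  by_cases h1 : Visits C v
  · have h1' : ∃ e ∈ C, v ∈ e := h1
    rw [if_pos h1, if_pos h1']
    by_cases h2 : TurnsIn C v
    · rw [if_pos h2, if_pos ((turnsIn_iff C v).1 h2)]
      ring
    · rw [if_neg h2, if_neg (fun h' => h2 ((turnsIn_iff C v).2 h'))]
      ring
  · have h1' : ¬ ∃ e ∈ C, v ∈ e := h1
    rw [if_neg h1, if_neg h1']
    by_cases h2 : Around C v
    · rw [if_pos h2, if_pos ((around_iff C v).1 h2)]
    · rw [if_neg h2, if_neg (fun h' => h2 ((around_iff C v).2 h'))]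

theorem zmod_eq {κ n x : ℝ} (hp : Pr κ n x) (D : Finset (ℤ × ℤ)) (v : ℤ × ℤ) :
    Zmod κ n x D v = LamW (Pool.Agent.H99F.uw (π / 2 - π / κ) v) x D +
      2 * LamW (Pool.Agent.H99F.uw (π / 2 - π / κ) v) x (D.erase v) := by
  rw [← Pool.Agent.H99F.LamW_three]
  unfold Zmod
  rw [configs_eq]
  refine Finset.sum_congr rfl fun S _ => ?_
  have e : ∏ C ∈ S, u κ n v C = ∏ C ∈ S, Pool.Agent.H99F.uw (π / 2 - π / κ) v C :=
    Finset.prod_congr rfl fun C _ => u_eq hp v C
  rw [e]
  by_cases h : ∃ C ∈ S, Visits C v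
  · have h' : ∃ C ∈ S, ∃ e ∈ C, v ∈ e := h
    rw [if_pos h, if_pos h']
  · have h' : ¬ ∃ C ∈ S, ∃ e ∈ C, v ∈ e := h
    rw [if_neg h, if_neg h']

theorem excess_eq (κ n x : ℝ) (D : Finset (ℤ × ℤ)) (v : ℤ × ℤ) : excess κ n x D v =
    ∑ p ∈ bd D, ∑ l ∈ PE D p.1 p.2, Fc (π / 2 - π / κ) x l * cov n x D v l -
      (bd D).card * (Lam n x D - Lam n x (D.erase v)) := by
  have e1 : Cross D = (CC D : Set (List (ℤ × ℤ))) := by
    ext l
    rw [Finset.mem_coe, cross_eq]
  unfold excess
  rw [e1, finsum_mem_coe_finset, bdry_eq, Set.ncard_coe_finset]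
  simp only [Zcov_eq, wt_eq]
  rw [Pool.Agent.H99F.sum_CC_cov, cov_nil]

end Aux

open Pool.Agent.H99B Pool.Agent.H99C Pool.Agent.H99E

/-- Every vertex outside of `D` has at most one neighbour in `D`. -/
def OneNeighbour (D : Finset (ℤ × ℤ)) : Prop :=
  ∀ b, b ∉ D → ∀ a ∈ D, ∀ a' ∈ D, Adj b a → Adj b a' → a = a'

/-- **Theorem.** Let `n = - 2 cos (4 π / κ)`, `8 / 3 ≤ κ ≤ 8`, let `x` be the critical point with the
parameter `κ`, and let `D` be a finite domain without holes.
(1) If every outer vertex has at most one neighbour in `D`, then for every boundary edge the paths which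
cross `D` with an end at this edge have the total signed weight `Z n x D []`, and for every vertex `v` of
`D` the excess of the coverage of `v` is exactly the sum `Zmod` over the loop configurations.
(2) If `κ ≤ 3` (`n ≤ 1`, `x = x_c(n)`), then for all `D` the excess is at least `3 Z n x D []`.
(3) If `3 ≤ κ ≤ 6` (`n ≥ 1`), then, for the domains in (1), it is at most `3 Z n x D []` in absolute
value; and it is equal to `3 Z n x D []` for `κ = 3` (the critical Ising model). -/
theorem result (κ n x : ℝ) (hn : n = -2 * cos (4 * π / κ))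
    (hx : (8 / 3 ≤ κ ∧ κ ≤ 4 ∧ x = (2 + (2 - n) ^ (1 / 2 : ℝ)) ^ (-(1 / 2) : ℝ)) ∨
      (4 ≤ κ ∧ κ ≤ 8 ∧ x = (2 - (2 - n) ^ (1 / 2 : ℝ)) ^ (-(1 / 2) : ℝ)))
    (D : Finset (ℤ × ℤ)) (hD : NoHoles D) :
    (OneNeighbour D →
      (∀ e ∈ Bdry D, ∑ᶠ l ∈ {l | l ∈ Cross D ∧ [e.2, e.1] <:+ l}, wt κ x l * Z n x D l = Z n x D []) ∧
      ∀ v ∈ D, excess κ n x D v = Zmod κ n x D v) ∧
    (κ ≤ 3 → ∀ v ∈ D, 3 * Z n x D [] ≤ excess κ n x D v) ∧
    (OneNeighbour D → 3 ≤ κ → κ ≤ 6 → ∀ v ∈ D, |excess κ n x D v| ≤ 3 * Z n x D [] ∧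
      (κ = 3 → excess κ n x D v = 3 * Z n x D [])) := by
  have hp := pr_of hn hx
  have hN := noHole D hD
  have hpt := pt_of hp
  have hpi := pi_pos
  have hk0 : 0 < κ := by linarith [hp.k1]
  have hnn := hp.n_nonneg
  have hu : OneNeighbour D → ∀ p ∈ bd D, ∀ y ∈ D, Adj p.1 y → y = p.2 := by
    intro hO p hpb y hy hady
    obtain ⟨h2, h1, h3⟩ := mem_bd.1 hpb
    exact hO p.1 h1 y hy p.2 h2 hady h3
  have hex : OneNeighbour D → ∀ v ∈ D, excess κ n x D v = Zmod κ n x D v := by
    intro hO v hv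
    rw [excess_eq, zmod_eq hp, hpt.coverage hN (hu hO) hv]
    ring
  have low : κ ≤ 3 → ∀ v ∈ D, 3 * Z n x D [] ≤ excess κ n x D v := by
    intro hk v hv
    have hd : Dil (π / 2 - π / κ) n x := by
      have h1 : π / κ ≤ 3 * π / 8 := hp.ang.2
      have h2 : π / 3 ≤ π / κ := div_le_div_of_nonneg_left hpi.le hk0 hk
      exact ⟨by linarith, by linarith, by rw [hpt.hn], hpt.hx⟩
    have h1 := Pool.Agent.H99F.coverage_le hd hN hv
    have h2 := Pool.Agent.H99F.lower hd hv
    rw [excess_eq, Z_eq, rest_nil]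
    linarith
  refine ⟨fun hO => ⟨?_, hex hO⟩, low, ?_⟩
  · rintro ⟨b, a⟩ ⟨hb, ha, hba⟩
    simp only at hb ha hba ⊢
    have h1 := hpt.T0 hN hba hb (fun y hy hady => hO b hb y hy a ha hady hba)
    have e1 : {l : List (ℤ × ℤ) | l ∈ Cross D ∧ [a, b] <:+ l} = (PE D b a : Set (List (ℤ × ℤ))) := by
      ext l
      rw [Finset.mem_coe, mem_PE_iff hb ha, Set.mem_ofPred_eq, cross_eq]
    rw [e1, finsum_mem_coe_finset, Z_eq, rest_nil]
    simp only [Z_eq, wt_eq]
    exact h1
  · intro hO h3 h6 v hv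
    have hn1 : 1 ≤ n := by
      have e1 : 4 * π / κ = 4 * (π / κ) := by ring
      have a1 : π / κ ≤ π / 3 := div_le_div_of_nonneg_left hpi.le (by norm_num) h3
      have a2 : π / 6 ≤ π / κ := div_le_div_of_nonneg_left hpi.le hk0 h6
      have h1 : cos (4 * π / κ) ≤ -1 / 2 := by
        have e2 : cos (4 * π / κ) = - cos (π - 4 * (π / κ)) := by
          rw [cos_pi_sub, e1, neg_neg]
        have e3 : 1 / 2 ≤ cos (π - 4 * (π / κ)) := by
          rw [← cos_pi_div_three, ← cos_abs (π - 4 * (π / κ))]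
          refine cos_le_cos_of_nonneg_of_le_pi (abs_nonneg _) (by linarith) ?_
          rw [abs_le]
          constructor <;> linarith
        rw [e2]
        linarith
      rw [hn]
      linarith
    have hn2 : n ≤ 2 := by
      rw [hn]
      linarith [neg_one_le_cos (4 * π / κ)]
    have h1 := Pool.Agent.H99F.upper hpt.hn hpt.hx hp.hx.le hn1 hn2 (D := D) hv
    rw [← zmod_eq hp, ← hex hO v hv] at h1
    have e0 : Z n x D [] = Lam n x D := by rw [Z_eq, rest_nil]
    rw [e0]
    refine ⟨h1, fun h => ?_⟩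
    have h2 := low h.le v hv
    rw [e0] at h2
    exact le_antisymm ((le_abs_self _).trans h1) h2

end Pool.Agent.Results.MP_4960b8_pr.ExactCoverage
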